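import Mathlib
import Pool.Prelude.Def_F_458e953d

/-!
Total domination number, sub-total domination number and the decision problem TDS-EQ.
-/

namespace Pool.Agent.MP_bfbf95_lc

/-- The total domination number: least size of a set `S` such that every vertex has a neighbour
in `S`. -/
noncomputable def gammaT {n : ℕ} (G : SimpleGraph (Fin n)) : ℕ :=
  sInf {k | ∃ S : Finset (Fin n), S.card = k ∧ ∀ v, ∃ w ∈ S, G.Adj v w}

/-- The degree sequence in non-increasing order. -/
noncomputable def degSeq {n : ℕ} (G : SimpleGraph (Fin n)) : List ℕ :=
  (List.ofFn fun v => (G.neighborSet v).ncard).insertionSort (fun a b => b ≤ a)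

/-- The sub-total domination number: least `k` such that the `k` largest degrees sum to at
least `n`. -/
noncomputable def subT {n : ℕ} (G : SimpleGraph (Fin n)) : ℕ :=
  sInf {k | n ≤ ((degSeq G).take k).sum}

open Classical in
/-- The adjacency matrix, as a list of rows. -/
noncomputable def adjRows {n : ℕ} (G : SimpleGraph (Fin n)) : List (List Bool) :=
  List.ofFn fun v => List.ofFn fun w => decide (G.Adj v w)

open Classical in
/-- TDS-EQ: the code words of the graphs without isolated vertices whose total domination number
equals the sub-total domination number. -/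
noncomputable def tdsEq : N68a2faeb.DecisionProblem := fun x =>
  decide (∃ (n : ℕ) (G : SimpleGraph (Fin n)), N487b59b3.bitEncode (adjRows G) = x ∧
    (∀ v, ∃ w, G.Adj v w) ∧ gammaT G = subT G)

end Pool.Agent.MP_bfbf95_lc
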